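import Pool.Agent.Helper28.QB.Theta

/-!
# PROJECT QB. Leaf (H): the Hilbert-Serre theorem without regularity

`R` graded over a field, `θ₁, ..., θ_D` homogeneous of positive degree with `R / (θ)`
finite-dimensional: the Hilbert series of `R` times `∏ (1 - t ^ deg θ_j)` is a polynomial.
-/

set_option autoImplicit false

namespace Pool.Agent.Helper62.QB

open DirectSum PowerSeries Module

variable {k A : Type*} [Field k] [CommRing A] [Algebra k A]

section

variable (𝒜 : ℕ → Submodule k A)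

/-- the dimension of the degree `n` part of an ideal -/
noncomputable def dm (I : Ideal A) (n : ℕ) : ℕ :=
  finrank k (I.restrictScalars k ⊓ 𝒜 n : Submodule k A)

/-- the Hilbert series of an ideal -/
noncomputable def ser (I : Ideal A) : ℤ⟦X⟧ := PowerSeries.mk fun n => (dm 𝒜 I n : ℤ)

end

/-- rank-nullity for the image of a subspace -/
theorem finrank_map_ker {V : Type*} [AddCommGroup V] [Module k V] (T : V →ₗ[k] V)
    (P : Submodule k V) [FiniteDimensional k P] :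
    finrank k (P.map T) + finrank k (P ⊓ LinearMap.ker T : Submodule k V) = finrank k P := by
  have h1 := LinearMap.finrank_range_add_finrank_ker (T.domRestrict P)
  have h2 : LinearMap.range (T.domRestrict P) = P.map T := by
    rw [LinearMap.range_domRestrict]
  have h3 : finrank k (LinearMap.ker (T.domRestrict P)) =
      finrank k (P ⊓ LinearMap.ker T : Submodule k V) := by
    have e : LinearMap.ker (T.domRestrict P) = (LinearMap.ker T).comap P.subtype := by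
      ext x
      simp
    rw [e, ← Submodule.finrank_map_subtype_eq, Submodule.map_comap_subtype]
  rw [← h3, ← h2]
  exact h1

/-- the linear algebra of one step -/
theorem finrank_step {V : Type*} [AddCommGroup V] [Module k V] (T : V →ₗ[k] V)
    (P Q : Submodule k V) [FiniteDimensional k P] [FiniteDimensional k Q] :
    finrank k (P.map T ⊔ Q : Submodule k V) + finrank k (P ⊓ Q.comap T : Submodule k V) =
      finrank k Q + finrank k P := by
  have h1 := Submodule.finrank_sup_add_finrank_inf_eq (P.map T) Q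
  have h2 := finrank_map_ker T P
  have h3 := finrank_map_ker T (P ⊓ Q.comap T)
  have h4 : (P ⊓ Q.comap T).map T = P.map T ⊓ Q := by
    ext x
    simp only [Submodule.mem_map, Submodule.mem_inf, Submodule.mem_comap]
    constructor
    · rintro ⟨y, ⟨hy1, hy2⟩, rfl⟩
      exact ⟨⟨y, hy1, rfl⟩, hy2⟩
    · rintro ⟨⟨y, hy1, rfl⟩, hy2⟩
      exact ⟨y, ⟨hy1, hy2⟩, rfl⟩
  have h5 : P ⊓ Q.comap T ⊓ LinearMap.ker T = P ⊓ LinearMap.ker T := by
    ext x
    simp only [Submodule.mem_inf, Submodule.mem_comap, LinearMap.mem_ker]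
    constructor
    · rintro ⟨⟨hy1, _⟩, hy3⟩
      exact ⟨hy1, hy3⟩
    · rintro ⟨hy1, hy3⟩
      refine ⟨⟨hy1, ?_⟩, hy3⟩
      rw [hy3]
      exact Q.zero_mem
  rw [h4, h5] at h3
  omega

variable (𝒜 : ℕ → Submodule k A) [GradedAlgebra 𝒜]

omit [GradedAlgebra 𝒜] in
theorem mem_piece {I : Ideal A} {n : ℕ} {x : A} :
    x ∈ (I.restrictScalars k ⊓ 𝒜 n : Submodule k A) ↔ x ∈ I ∧ x ∈ 𝒜 n := Iff.rfl

/-- a homogeneous element of `J + t I` -/
theorem mem_sup_mul {I J : Ideal A} (hI : I.IsHomogeneous 𝒜) (hJ : J.IsHomogeneous 𝒜) {e : ℕ}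
    {t : A} (ht : t ∈ 𝒜 e) {p : ℕ} {x : A} (hx : x ∈ 𝒜 p) (h : x ∈ J ⊔ Ideal.span {t} * I) :
    (p < e ∧ x ∈ J) ∨ (e ≤ p ∧ ∃ a ∈ I, a ∈ 𝒜 (p - e) ∧ ∃ b ∈ J, b ∈ 𝒜 p ∧ x = t * a + b) := by
  obtain ⟨b, hb, y, hy, rfl⟩ := Submodule.mem_sup.1 h
  obtain ⟨a, ha, rfl⟩ := Ideal.mem_span_singleton_mul.1 hy
  have h1 : b + t * a = ((decompose 𝒜 (b + t * a) p : 𝒜 p) : A) :=
    (decompose_of_mem_same 𝒜 hx).symm
  rw [decompose_add, DirectSum.add_apply, Submodule.coe_add] at h1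
  rcases Nat.lt_or_ge p e with hp | hp
  · left
    refine ⟨hp, ?_⟩
    rw [coe_decompose_mul_of_left_mem_of_not_le 𝒜 ht (by omega), add_zero] at h1
    rw [h1]
    exact hJ p hb
  · right
    refine ⟨hp, ((decompose 𝒜 a (p - e) : 𝒜 (p - e)) : A), hI _ ha, SetLike.coe_mem _,
      ((decompose 𝒜 b p : 𝒜 p) : A), hJ p hb, SetLike.coe_mem _, ?_⟩
    rw [coe_decompose_mul_of_left_mem_of_le 𝒜 ht hp] at h1
    rw [h1, add_comm]

/-- low degrees -/
theorem dm_small {I J : Ideal A} (hI : I.IsHomogeneous 𝒜) (hJ : J.IsHomogeneous 𝒜) {e : ℕ}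
    {t : A} (ht : t ∈ 𝒜 e) {p : ℕ} (hp : p < e) :
    dm 𝒜 (J ⊔ Ideal.span {t} * I) p = dm 𝒜 J p := by
  have : ((J ⊔ Ideal.span {t} * I).restrictScalars k ⊓ 𝒜 p : Submodule k A) =
      J.restrictScalars k ⊓ 𝒜 p := by
    ext x
    rw [mem_piece, mem_piece]
    constructor
    · rintro ⟨h1, h2⟩
      rcases mem_sup_mul 𝒜 hI hJ ht h2 h1 with h3 | h3
      · exact ⟨h3.2, h2⟩
      · omega
    · rintro ⟨h1, h2⟩
      exact ⟨Ideal.mem_sup_left h1, h2⟩
  unfold dm
  rw [this]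

/-- the elements of `I` sent into `J` by `t` -/
def col (J : Ideal A) (t : A) : Ideal A where
  carrier := {a | t * a ∈ J}
  zero_mem' := by simp
  add_mem' := by
    intro a b ha hb
    simp only [Set.mem_ofPred_eq, mul_add] at *
    exact J.add_mem ha hb
  smul_mem' := by
    intro c a ha
    simp only [Set.mem_ofPred_eq, smul_eq_mul] at *
    rw [mul_left_comm]
    exact J.mul_mem_left c ha

theorem mem_col {J : Ideal A} {t a : A} : a ∈ col J t ↔ t * a ∈ J := Iff.rfl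

theorem col_homog {J : Ideal A} (hJ : J.IsHomogeneous 𝒜) {e : ℕ} {t : A} (ht : t ∈ 𝒜 e) :
    (col J t).IsHomogeneous 𝒜 := by
  intro n a ha
  rw [mem_col] at ha ⊢
  have h1 := hJ (e + n) ha
  rwa [coe_decompose_mul_add_of_left_mem 𝒜 ht] at h1

/-- one step -/
theorem dm_step {I J : Ideal A} (hI : I.IsHomogeneous 𝒜) (hJ : J.IsHomogeneous 𝒜)
    (hfd : ∀ n, Module.Finite k (𝒜 n)) {e : ℕ} {t : A} (ht : t ∈ 𝒜 e) (n : ℕ) :
    dm 𝒜 (J ⊔ Ideal.span {t} * I) (n + e) + dm 𝒜 (I ⊓ col J t) n = dm 𝒜 J (n + e) + dm 𝒜 I n := by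
  have := hfd n
  have := hfd (n + e)
  have hfi : ∀ (I' : Ideal A) (m : ℕ),
      FiniteDimensional k (I'.restrictScalars k ⊓ 𝒜 m : Submodule k A) := by
    intro I' m
    have := hfd m
    exact Submodule.finiteDimensional_of_le inf_le_right
  have := hfi I n
  have := hfi J (n + e)
  have h := finrank_step (LinearMap.mulLeft k t) (I.restrictScalars k ⊓ 𝒜 n)
    (J.restrictScalars k ⊓ 𝒜 (n + e))
  have e1 : ((I.restrictScalars k ⊓ 𝒜 n).map (LinearMap.mulLeft k t) ⊔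
      (J.restrictScalars k ⊓ 𝒜 (n + e)) : Submodule k A) =
      (J ⊔ Ideal.span {t} * I).restrictScalars k ⊓ 𝒜 (n + e) := by
    apply le_antisymm
    · apply sup_le
      · rintro _ ⟨a, ⟨ha1, ha2⟩, rfl⟩
        rw [mem_piece, LinearMap.mulLeft_apply]
        refine ⟨Ideal.mem_sup_right (Ideal.mul_mem_mul (Ideal.mem_span_singleton_self t) ha1), ?_⟩
        rw [add_comm]
        exact SetLike.mul_mem_graded ht ha2
      · rintro b ⟨hb1, hb2⟩
        exact ⟨Ideal.mem_sup_left hb1, hb2⟩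
    · rintro x ⟨hx1, hx2⟩
      rcases mem_sup_mul 𝒜 hI hJ ht hx2 hx1 with h3 | ⟨_, a, ha1, ha2, b, hb1, hb2, rfl⟩
      · omega
      · rw [Nat.add_sub_cancel] at ha2
        exact Submodule.add_mem_sup ⟨a, ⟨ha1, ha2⟩, rfl⟩ ⟨hb1, hb2⟩
  have e2 : ((I.restrictScalars k ⊓ 𝒜 n) ⊓
      (J.restrictScalars k ⊓ 𝒜 (n + e)).comap (LinearMap.mulLeft k t) : Submodule k A) =
      (I ⊓ col J t).restrictScalars k ⊓ 𝒜 n := by
    ext a
    constructor
    · rintro ⟨⟨h1, h2⟩, h3, _⟩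
      exact ⟨⟨h1, h3⟩, h2⟩
    · rintro ⟨⟨h1, h3⟩, h2⟩
      refine ⟨⟨h1, h2⟩, h3, ?_⟩
      show t * a ∈ 𝒜 (n + e)
      rw [add_comm]
      exact SetLike.mul_mem_graded ht h2
  rw [e1, e2] at h
  exact h

/-- one step for the series -/
theorem ser_step {I J : Ideal A} (hI : I.IsHomogeneous 𝒜) (hJ : J.IsHomogeneous 𝒜)
    (hfd : ∀ n, Module.Finite k (𝒜 n)) {e : ℕ} {t : A} (ht : t ∈ 𝒜 e) :
    ser 𝒜 (J ⊔ Ideal.span {t} * I) - ser 𝒜 J = X ^ e * (ser 𝒜 I - ser 𝒜 (I ⊓ col J t)) := by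
  ext p
  rw [map_sub, coeff_X_pow_mul', map_sub]
  simp only [ser, PowerSeries.coeff_mk]
  split_ifs with hp
  · obtain ⟨n, rfl⟩ : ∃ n, p = n + e := ⟨p - e, by omega⟩
    rw [Nat.add_sub_cancel]
    have := dm_step 𝒜 hI hJ hfd ht n
    omega
  · rw [dm_small 𝒜 hI hJ ht (by omega), sub_self]

/-- the case in which everything is killed -/
theorem ser_base [IsNoetherianRing A] {K I J : Ideal A} (hK : K.IsHomogeneous 𝒜)
    [Module.Finite k (A ⧸ K)] (hI : I.IsHomogeneous 𝒜) (hJI : J ≤ I) (h : K * I ≤ J) :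
    ∃ f : Polynomial ℤ, ser 𝒜 I - ser 𝒜 J = (f : ℤ⟦X⟧) := by
  classical
  obtain ⟨n0, hn0⟩ := Helper28.QB.large_of_finite hK
  obtain ⟨s, d, hd, hs⟩ := Helper28.QB.exists_gen 𝒜 hI
  have hlarge : ∀ p, n0 + s.sup d ≤ p → dm 𝒜 I p = dm 𝒜 J p := by
    intro p hp
    have : (I.restrictScalars k ⊓ 𝒜 p : Submodule k A) = J.restrictScalars k ⊓ 𝒜 p := by
      apply le_antisymm
      · rintro x ⟨hx1, hx2⟩
        refine ⟨?_, hx2⟩
        have hx1' : x ∈ Ideal.span (s : Set A) := hs ▸ hx1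
        obtain ⟨c, hc, hxc⟩ := Helper28.QB.comb 𝒜 hd hx2 hx1'
        show x ∈ J
        rw [hxc]
        refine J.sum_mem fun g hg => ?_
        obtain ⟨hg1, hg2⟩ := Finset.mem_filter.1 hg
        have h1 : d g ≤ s.sup d := Finset.le_sup hg1
        apply h
        apply Ideal.mul_mem_mul
        · exact hn0 (p - d g) (by omega) _ (hc g hg1 hg2)
        · rw [hs]
          exact Ideal.subset_span hg1
      · rintro x ⟨hx1, hx2⟩
        exact ⟨hJI hx1, hx2⟩
    unfold dm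
    rw [this]
  refine ⟨PowerSeries.trunc (n0 + s.sup d) (ser 𝒜 I - ser 𝒜 J), ?_⟩
  ext p
  rw [Polynomial.coeff_coe, PowerSeries.coeff_trunc]
  split_ifs with hp
  · rfl
  · rw [map_sub]
    simp only [ser, PowerSeries.coeff_mk]
    rw [hlarge p (by omega), sub_self]

/-- **Hilbert-Serre** for subquotients. -/
theorem ser_main [IsNoetherianRing A] (hfd : ∀ n, Module.Finite k (𝒜 n))
    {D : ℕ} (θ : Fin D → A) (e : Fin D → ℕ) (hθ : ∀ j, θ j ∈ 𝒜 (e j))
    (hfin : Module.Finite k (A ⧸ Ideal.span (Set.range θ))) (m : ℕ) (hm : m ≤ D) :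
    ∀ I J : Ideal A, I.IsHomogeneous 𝒜 → J.IsHomogeneous 𝒜 → J ≤ I →
      (∀ j : Fin D, m ≤ (j : ℕ) → Ideal.span {θ j} * I ≤ J) →
      ∃ f : Polynomial ℤ, (ser 𝒜 I - ser 𝒜 J) *
        ∏ i ∈ Finset.univ.filter (fun i : Fin D => (i : ℕ) < m), (1 - X ^ e i) = (f : ℤ⟦X⟧) := by
  classical
  induction m with
  | zero =>
    intro I J hI hJ hJI h
    have hK : (Ideal.span (Set.range θ)).IsHomogeneous 𝒜 := by
      refine Ideal.homogeneous_span 𝒜 _ ?_
      rintro _ ⟨i, rfl⟩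
      exact ⟨e i, hθ i⟩
    have hKJ : Ideal.span (Set.range θ) * I ≤ J := by
      rw [Ideal.mul_le]
      intro r hr a ha
      have h1 : Ideal.span (Set.range θ) ≤ col J a := by
        rw [Ideal.span_le]
        rintro _ ⟨i, rfl⟩
        show a * θ i ∈ J
        rw [mul_comm]
        exact h i (Nat.zero_le _) (Ideal.mul_mem_mul (Ideal.mem_span_singleton_self _) ha)
      have h2 := h1 hr
      rw [mem_col, mul_comm] at h2
      exact h2
    obtain ⟨f, hf⟩ := ser_base 𝒜 hK hI hJI hKJ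
    refine ⟨f, ?_⟩
    simpa using hf
  | succ m ih =>
    intro I J hI hJ hJI h
    have hm' : m < D := by omega
    have ht := hθ ⟨m, hm'⟩
    set t := θ ⟨m, hm'⟩ with htdef
    have htI : (Ideal.span {t} * I).IsHomogeneous 𝒜 := by
      apply Ideal.IsHomogeneous.mul _ hI
      refine Ideal.homogeneous_span 𝒜 _ ?_
      rintro _ rfl
      exact ⟨_, ht⟩
    have htIle : Ideal.span {t} * I ≤ I := Ideal.mul_le_right
    obtain ⟨f1, hf1⟩ := ih (by omega) I (J ⊔ Ideal.span {t} * I) hI (hJ.sup htI)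
      (sup_le hJI htIle) (by
        intro j hj
        rcases Nat.eq_or_lt_of_le hj with h1 | h1
        · have : j = ⟨m, hm'⟩ := Fin.ext h1.symm
          rw [this]
          exact le_sup_right
        · exact (h j h1).trans le_sup_left)
    obtain ⟨f2, hf2⟩ := ih (by omega) (I ⊓ col J t) J (hI.inf (col_homog 𝒜 hJ ht)) hJ
      (by
        intro a ha
        exact ⟨hJI ha, J.mul_mem_left t ha⟩) (by
        intro j hj
        rcases Nat.eq_or_lt_of_le hj with h1 | h1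
        · have : j = ⟨m, hm'⟩ := Fin.ext h1.symm
          rw [this, Ideal.mul_le]
          intro r hr a ha
          obtain ⟨c, rfl⟩ := Ideal.mem_span_singleton'.1 hr
          have h2 : t * a ∈ J := ha.2
          rw [mul_assoc]
          exact J.mul_mem_left c h2
        · exact (Ideal.mul_mono_right inf_le_left).trans (h j h1))
    have hstep := ser_step 𝒜 hI hJ hfd ht
    have hf : Finset.univ.filter (fun i : Fin D => (i : ℕ) < m + 1) =
        insert (⟨m, hm'⟩ : Fin D) (Finset.univ.filter (fun i : Fin D => (i : ℕ) < m)) := by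
      ext i
      simp only [Finset.mem_filter, Finset.mem_univ, true_and, Finset.mem_insert, Fin.ext_iff]
      omega
    refine ⟨f1 - Polynomial.X ^ e ⟨m, hm'⟩ * f2, ?_⟩
    rw [hf, Finset.prod_insert (by simp), Polynomial.coe_sub, Polynomial.coe_mul,
      Polynomial.coe_pow, Polynomial.coe_X, ← hf1, ← hf2]
    have h3 : ser 𝒜 J = ser 𝒜 (J ⊔ Ideal.span {t} * I) -
        X ^ e ⟨m, hm'⟩ * (ser 𝒜 I - ser 𝒜 (I ⊓ col J t)) := by
      rw [← hstep]
      ring
    linear_combination (-(1 : ℤ⟦X⟧)) * (∏ i ∈ Finset.univ.filter (fun i : Fin D => (i : ℕ) < m),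
      (1 - X ^ e i)) * h3

/-- **Leaf (H).** -/
theorem theta_series' [IsNoetherianRing A] (h0 : ∀ a ∈ 𝒜 0, ∃ c : k, algebraMap k A c = a)
    {D : ℕ} (θ : Fin D → A) (e : Fin D → ℕ) (hθ : ∀ j, 0 < e j ∧ θ j ∈ 𝒜 (e j))
    (hfin : Module.Finite k (A ⧸ Ideal.span (Set.range θ))) :
    ∃ f : Polynomial ℤ, (PowerSeries.mk fun p => (Module.finrank k (𝒜 p) : ℤ)) *
      Pool.Agent.Helper67.QB.ps e = (f : ℤ⟦X⟧) := by
  classical
  have hfd := Helper28.QB.finite_piece 𝒜 h0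
  obtain ⟨f, hf⟩ := ser_main 𝒜 hfd θ e (fun j => (hθ j).2) hfin D le_rfl ⊤ ⊥
    (Ideal.IsHomogeneous.top 𝒜) (Ideal.IsHomogeneous.bot 𝒜) bot_le
    (fun j hj => absurd j.2 (by omega))
  refine ⟨f, ?_⟩
  rw [← hf, Pool.Agent.Helper67.QB.ps_eq]
  have h1 : ser 𝒜 (⊤ : Ideal A) - ser 𝒜 (⊥ : Ideal A) =
      PowerSeries.mk fun p => (Module.finrank k (𝒜 p) : ℤ) := by
    ext p
    rw [map_sub]
    simp only [ser, dm, PowerSeries.coeff_mk]
    rw [Submodule.restrictScalars_bot, bot_inf_eq, finrank_bot, Submodule.restrictScalars_top,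
      top_inf_eq]
    simp
  rw [h1]
  congr 1
  refine Finset.prod_congr ?_ fun _ _ => rfl
  ext i
  simp

end Pool.Agent.Helper62.QB
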